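import Pool.Agent.Helper89.OS.St2

/-!
# Project OS, module CDX
-/

set_option autoImplicit false

namespace Pool.Agent.Helper60.OS

open Matrix ComplexConjugate Pool.Agent.Helper94.YF Pool.Agent.Helper94.YG
open Pool.Agent.Helper89.OS

/-- divisibility of a sum over a set which is the union of orbits -/
theorem dvd_orbits {I : Type} [DecidableEq I] (K : Finset I) (O : I → Finset I) (f : I → ℤ) (g : ℤ)
    (hOK : ∀ k ∈ K, O k ⊆ K) (hOs : ∀ k ∈ K, k ∈ O k) (hOe : ∀ k ∈ K, ∀ j ∈ O k, O j = O k)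
    (hf : ∀ k ∈ K, ∀ j ∈ O k, f j = f k) (hg : ∀ k ∈ K, g ∣ ((O k).card : ℤ) * f k) :
    g ∣ ∑ k ∈ K, f k := by
  have h1 : ∑ T ∈ K.image O, ∑ k ∈ K.filter (fun k => O k = T), f k = ∑ k ∈ K, f k :=
    Finset.sum_fiberwise_of_maps_to (fun k hk => Finset.mem_image_of_mem O hk) f
  rw [← h1]
  apply Finset.dvd_sum
  intro T hT
  obtain ⟨k0, hk0, rfl⟩ := Finset.mem_image.1 hT
  have h2 : K.filter (fun k => O k = O k0) = O k0 := by
    ext k
    rw [Finset.mem_filter]
    constructor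
    · rintro ⟨hk, hkO⟩
      rw [← hkO]
      exact hOs k hk
    · intro hk
      exact ⟨hOK k0 hk0 hk, hOe k0 hk0 k hk⟩
  rw [h2, Finset.sum_congr rfl (fun j hj => hf k0 hk0 j hj), Finset.sum_const, nsmul_eq_mul]
  exact hg k0 hk0

open Classical in
theorem hCDX : StCDX := by
  intro hMZZ hDRE hTSU hMUK hSTL hHEC hAMG hRAT I _ _ p X Q hB hq
  have : NeZero p := ⟨X.prime.ne_zero⟩
  obtain ⟨-, hsq, ⟨j0, hj0y, hj0t⟩, hev, hg2, hx1, -⟩ := hMZZ I p X
  obtain ⟨hD1, hD2, hD3, hD4⟩ := hDRE hSTL hHEC hMZZ I p X Q hB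
  have hT := hTSU hSTL hHEC hMZZ hRAT I p X Q hB
  have hM := hMUK hTSU hAMG hSTL hHEC hMZZ hRAT I p X Q hB
  set x : ℤ := X.y X.o with hx
  set g : ℤ := (p : ℤ) - x with hg
  have hpp : (2 : ℤ) ≤ p := by exact_mod_cast X.prime.two_le
  have hg0 : g ≠ 0 := by omega
  -- the torus
  have hinv : ∀ c k, X.pi c⁻¹ (X.pi c k) = k := by
    intro c k
    rw [← X.pi_mul, inv_mul_cancel, X.pi_one]
  have hpio : ∀ c k, X.pi c k = X.o → k = X.o := by
    intro c k h
    rw [← hinv c k, h, X.pi_o]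
  have hpit : ∀ c k, X.t k = 1 → X.t (X.pi c k) = 1 := by
    intro c k h
    rw [X.pi_t, h, one_pow]
  have hOmem : ∀ k j, j ∈ Orb X k ↔ ∃ c, X.pi c k = j := by
    intro k j
    simp [Orb]
  set K : Finset I := Finset.univ.filter fun k => X.y k ≠ 0 ∧ X.t k = 1 ∧ k ≠ X.o with hK
  have hKm : ∀ k, k ∈ K ↔ X.y k ≠ 0 ∧ X.t k = 1 ∧ k ≠ X.o := by
    intro k
    simp [hK]
  have hOK : ∀ k ∈ K, Orb X k ⊆ K := by
    intro k hk j hj
    obtain ⟨c, rfl⟩ := (hOmem k j).1 hj
    obtain ⟨h1, h2, h3⟩ := (hKm k).1 hk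
    rw [hKm]
    refine ⟨by rw [X.pi_y]; exact h1, hpit c k h2, fun h => h3 (hpio c k h)⟩
  have hOs : ∀ k ∈ K, k ∈ Orb X k := fun k _ => (hOmem k k).2 ⟨1, X.pi_one k⟩
  have hOy : ∀ k ∈ K, ∀ j ∈ Orb X k, X.y j = X.y k ∧ X.d j = X.d k := by
    intro k _ j hj
    obtain ⟨c, rfl⟩ := (hOmem k j).1 hj
    exact ⟨X.pi_y c k, X.pi_d c k⟩
  have hOe : ∀ k ∈ K, ∀ j ∈ Orb X k, Orb X j = Orb X k := by
    intro k _ j hj
    obtain ⟨c, rfl⟩ := (hOmem k j).1 hj
    ext i
    rw [hOmem, hOmem]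
    constructor
    · rintro ⟨c', rfl⟩
      exact ⟨c' * c, X.pi_mul c' c k⟩
    · rintro ⟨c', rfl⟩
      refine ⟨c' * c⁻¹, ?_⟩
      rw [X.pi_mul, hinv]
  have hOg : ∀ k ∈ K, g ∣ ((Orb X k).card : ℤ) * X.y k := by
    intro k hk
    obtain ⟨h1, h2, h3⟩ := (hKm k).1 hk
    exact (hT k h1 h2 h3).2
  -- sums over K
  have hsum : ∀ f : I → ℤ, (∀ k, X.y k = 0 → f k = 0) →
      ∑ k ∈ K, f k = (∑ k, if X.t k = 1 then f k else 0) - f X.o := by
    intro f hf
    have h1 : (∑ k, if X.t k = 1 then f k else 0) =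
        ∑ k ∈ Finset.univ.filter (fun k => X.t k = 1), f k := by
      rw [Finset.sum_filter]
    have h2 : X.o ∈ Finset.univ.filter (fun k => X.t k = 1) := by
      simp [X.t_o]
    have h3 := Finset.sum_erase_add (Finset.univ.filter (fun k => X.t k = 1)) f h2
    have h4 : ∑ k ∈ K, f k = ∑ k ∈ (Finset.univ.filter (fun k => X.t k = 1)).erase X.o, f k := by
      apply Finset.sum_subset
      · intro k hk
        obtain ⟨h1, h2, h3⟩ := (hKm k).1 hk
        simp [h2, h3]
      · intro k hk hkK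
        rw [Finset.mem_erase, Finset.mem_filter] at hk
        apply hf
        by_contra hy
        exact hkK ((hKm k).2 ⟨hy, hk.2.2, hk.1⟩)
    rw [h1, h4]
    linarith
  have hsqK : ∑ k ∈ K, X.y k ^ 2 = g * (p + 1 - g) := by
    rw [hsum (fun k => X.y k ^ 2) (by intro k hk; simp [hk]), hsq, hg]
    ring
  have hdimK : ∑ k ∈ K, X.y k * (X.d k : ℤ) = (p * X.z X.o - 1) + g := by
    rw [hsum (fun k => X.y k * (X.d k : ℤ)) (by intro k hk; simp [hk]), hD3, X.d_o, hg]
    push_cast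
    ring
  have hgd : g ∣ ∑ k ∈ K, X.y k * (X.d k : ℤ) := by
    apply dvd_orbits K (Orb X) _ g hOK hOs hOe
    · intro k hk j hj
      rw [(hOy k hk j hj).1, (hOy k hk j hj).2]
    · intro k hk
      rw [← mul_assoc]
      exact Dvd.dvd.mul_right (hOg k hk) _
  have hgE : g ∣ (p : ℤ) * X.z X.o - 1 := by
    rw [hdimK] at hgd
    exact (Int.dvd_add_left (dvd_refl g)).1 hgd
  obtain ⟨D, hD⟩ := hgE
  have hpD : ¬ (p : ℤ) ∣ D := by
    intro h
    have h1 : (p : ℤ) ∣ (p : ℤ) * X.z X.o - 1 := by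
      rw [hD]; exact Dvd.dvd.mul_left h g
    have h2 : (p : ℤ) ∣ 1 := by
      have := dvd_sub (dvd_mul_right (p : ℤ) (X.z X.o)) h1
      simpa using this
    have h3 := Int.le_of_dvd one_pos h2
    omega
  have hrel : ∀ k ∈ K, (X.d k : ℤ) = D * X.y k + p * X.z k := by
    intro k hk
    obtain ⟨h1, h2, h3⟩ := (hKm k).1 hk
    have h4 := hD1 k h1 h2 h3
    rw [hD] at h4
    apply mul_left_cancel₀ hg0
    rw [h4]
    ring
  have hj0 : (X.d j0 : ℤ) = D * X.y j0 := by
    have h4 := hD2 j0 hj0y hj0t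
    rw [hD] at h4
    apply mul_left_cancel₀ hg0
    rw [h4]
    ring
  have hbig : ∀ c : ℤ, c ∣ D → 1 < c → (p : ℤ) < c := by
    intro c hc h1
    obtain ⟨n, rfl⟩ := Int.eq_ofNat_of_zero_le (by omega : 0 ≤ c)
    have hn : 1 < n := by exact_mod_cast h1
    have hqp : (n.minFac).Prime := Nat.minFac_prime (by omega)
    have hqn : n.minFac ∣ n := Nat.minFac_dvd n
    have hqD : ((n.minFac : ℕ) : ℤ) ∣ D := dvd_trans (Int.natCast_dvd_natCast.2 hqn) hc
    have hqd : n.minFac ∣ X.d j0 := by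
      apply Int.natCast_dvd_natCast.1
      rw [hj0]
      exact Dvd.dvd.mul_right hqD _
    have hqpm : n.minFac ∣ p * X.m := dvd_trans hqd (X.d_dvd j0)
    rcases (Nat.Prime.dvd_mul hqp).1 hqpm with h2 | h2
    · have h3 : n.minFac = p := (Nat.prime_dvd_prime_iff_eq hqp X.prime).1 h2
      rw [h3] at hqD
      exact absurd hqD hpD
    · have h3 := hq _ hqp h2
      have h4 : n.minFac ≤ n := Nat.le_of_dvd (by omega) hqn
      exact_mod_cast lt_of_lt_of_le h3 h4
  have hyle : ∀ k ∈ K, X.y k ^ 2 < (p : ℤ) ^ 2 := by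
    intro k hk
    have h1 : X.y k ^ 2 ≤ ∑ k ∈ K, X.y k ^ 2 :=
      Finset.single_le_sum (f := fun k => X.y k ^ 2) (fun i _ => sq_nonneg (X.y i)) hk
    rw [hsqK] at h1
    have h2 : g ≤ p - 1 := by omega
    have h3 : g * (p + 1 - g) ≤ (p - 1) * (p - 1) := by
      apply mul_le_mul h2 (by omega) (by omega) (by omega)
    nlinarith
  have hdvd : ∀ k ∈ K, (X.d k : ℤ) ∣ D := by
    intro k hk
    obtain ⟨h1, h2, h3⟩ := (hKm k).1 hk
    have h4 : (X.d k : ℤ) ∣ p * X.z k := X.z_dvd k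
    have h6 : (X.d k : ℤ) ∣ D * X.y k := by
      have h7 := hrel k hk
      have h8 : D * X.y k = X.d k - p * X.z k := by linarith
      rw [h8]
      exact dvd_sub (dvd_refl _) h4
    have h9 : IsCoprime (X.d k : ℤ) (X.y k) := by
      rw [Int.isCoprime_iff_gcd_eq_one]
      by_contra hne
      obtain ⟨q, hqp, hqd⟩ := Nat.exists_prime_and_dvd hne
      have ha : (q : ℤ) ∣ X.d k := dvd_trans (Int.natCast_dvd_natCast.2 hqd) (Int.gcd_dvd_left ..)
      have hb : (q : ℤ) ∣ X.y k := dvd_trans (Int.natCast_dvd_natCast.2 hqd) (Int.gcd_dvd_right ..)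
      have ha' : q ∣ X.d k := Int.natCast_dvd_natCast.1 ha
      have hqpm : q ∣ p * X.m := dvd_trans ha' (X.d_dvd k)
      rcases (Nat.Prime.dvd_mul hqp).1 hqpm with h | h
      · have h' : q = p := (Nat.prime_dvd_prime_iff_eq hqp X.prime).1 h
        rw [h'] at ha'
        exact hB.d_nd k h1 ha'
      · have h' := hq q hqp h
        obtain ⟨u, hu⟩ := hb
        have hu0 : u ≠ 0 := by
          rintro rfl
          apply h1
          rw [hu, mul_zero]
        have hu1 : 1 ≤ u ^ 2 := by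
          have := sq_nonneg u
          have h0 : u ^ 2 ≠ 0 := pow_ne_zero 2 hu0
          omega
        have hpq : (p : ℤ) < q := by exact_mod_cast h'
        have h10 := hyle k hk
        rw [hu, mul_pow] at h10
        nlinarith [mul_le_mul_of_nonneg_left hu1 (sq_nonneg (q : ℤ))]
    exact h9.dvd_of_dvd_mul_right h6
  refine ⟨{ K := K, y := X.y, d := X.d, z := X.z, st := X.st, O := Orb X, g := g, D := D
            g_ge := hg2
            g_le := by omega
            g_even := hev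
            y_ne := fun k hk => ((hKm k).1 hk).1
            d_pos := X.d_pos
            sq := hsqK
            dim := by rw [hdimK, hD]; ring
            rel := hrel
            dvd := hdvd
            big := hbig
            pD := hpD
            O_K := hOK
            O_self := hOs
            O_y := hOy
            O_eq := hOe
            O_g := hOg
            st_K := ?_
            st_st := X.st_st
            st_ne := ?_
            st_y := fun k => ⟨X.y_st k, X.d_st k⟩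
            muk := ?_ }, rfl, ?_⟩
  · intro k hk
    obtain ⟨h1, h2, h3⟩ := (hKm k).1 hk
    rw [hKm]
    refine ⟨by rw [X.y_st]; exact h1, by rw [X.t_st]; exact h2, ?_⟩
    intro h
    apply h3
    rw [← X.st_st k, h, X.st_o]
  · intro k hk h
    exact ((hKm k).1 hk).2.2 (X.nsd k h)
  · intro k hk hy hc
    obtain ⟨h1, h2, h3⟩ := (hKm k).1 hk
    have h4 := hM k h1 h2 h3 hy hc
    have hoN : X.o ∉ K \ Orb X k := by
      intro h
      rw [Finset.mem_sdiff] at h
      exact ((hKm _).1 h.1).2.2 rfl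
    rw [← Finset.card_insert_of_notMem hoN]
    refine le_trans (Finset.card_le_card ?_) h4
    intro j hj
    rw [Finset.mem_insert] at hj
    rw [Finset.mem_filter]
    rcases hj with rfl | hj
    · refine ⟨Finset.mem_univ _, ?_, X.t_o, ?_⟩
      · intro h0
        rw [← hx] at h0
        omega
      · intro hmem
        obtain ⟨c, hc'⟩ := (hOmem _ _).1 hmem
        exact h3 (hpio c k hc')
    · rw [Finset.mem_sdiff] at hj
      obtain ⟨h5, h6, -⟩ := (hKm j).1 hj.1
      exact ⟨Finset.mem_univ _, h5, h6, hj.2⟩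
  · ext k
    simp [hK]

end Pool.Agent.Helper60.OS
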